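import Pool.Agent.Helper21.FC.F3b

/-!
MP_0aa406_nt, Q1, in the digit form of `V_{F,d}`: the bound `V_{F,d} ≤ (1 / 2 + ε) n` in every
characteristic, uniformly in `p`, for all degrees with large prime factors.
-/

set_option autoImplicit false

namespace Pool.Agent.Results.MP_0aa406_nt.EveryCharacteristic

/-- For every `ε > 0` there is `N₀` such that for every prime `p`, every `m ≥ 2` all of whose prime
factors are at least `N₀`, every multiple `n ≥ 1` of `m` (in particular `n = m`) and every `d` coprime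
to `p ^ n - 1` which is not a power of `p` modulo `p ^ m - 1`, there are `0 < a < p ^ n - 1` and
`0 ≤ b < p ^ n - 1` with `b ≡ - d a` modulo `p ^ n - 1` whose base-`p` digit sums add up to at most
`(1 / 2 + ε) n (p - 1)`. -/
theorem result : ∀ ε : ℝ, 0 < ε → ∃ N₀ : ℕ, ∀ p : ℕ, p.Prime → ∀ m : ℕ, 2 ≤ m →
    (∀ q : ℕ, q.Prime → q ∣ m → N₀ ≤ q) → ∀ n : ℕ, 0 < n → m ∣ n → ∀ d : ℕ,
      Nat.Coprime d (p ^ n - 1) → (∀ k : ℕ, ¬ d ≡ p ^ k [MOD p ^ m - 1]) →
      ∃ a b : ℕ, 0 < a ∧ a < p ^ n - 1 ∧ b < p ^ n - 1 ∧ (p ^ n - 1) ∣ d * a + b ∧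
        (((Nat.digits p a).sum + (Nat.digits p b).sum : ℕ) : ℝ) ≤
          (1 / 2 + ε) * n * ((p : ℝ) - 1) :=
  fun ε hε => Pool.Agent.Helper21.FC.main ε hε

end Pool.Agent.Results.MP_0aa406_nt.EveryCharacteristic
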