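import Pool.Agent.Helper21.FD.U2

/-!
MP_0aa406_nt, Q1, in the digit form of `V_{F,d}`: the bound of Q1 for all finite fields up to an additive
constant which depends only on the least odd prime factor `l` of the degree, and
`V_{F,d} ≤ (1 / 2 + ε) n + C(ε)` for large `l`.
-/

set_option autoImplicit false

namespace Pool.Agent.Helper21.Retired.EveryField

/-- For every `ε > 0` there is a constant `C` such that for every prime `p`, every `m ≥ 1`, every `l ≥ 1`
which is at most as large as every odd prime factor of `m`, every multiple `n ≥ 1` of `m` (in particular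
`n = m`) and every `d` coprime to `p ^ n - 1` which is not a power of `p` modulo `p ^ m - 1`, there are
`0 < a < p ^ n - 1` and `0 ≤ b < p ^ n - 1` with `b ≡ - d a` modulo `p ^ n - 1` whose base-`p` digit sums
add up to at most `(max (1 / 2 + ε, (l + 1) / (2 l)) n + C n / m) (p - 1)`. -/
theorem result : ∀ ε : ℝ, 0 < ε → ∃ C : ℝ, ∀ p : ℕ, p.Prime → ∀ m : ℕ, 0 < m →
    ∀ l : ℕ, 1 ≤ l → (∀ q : ℕ, q.Prime → q ≠ 2 → q ∣ m → l ≤ q) →
    ∀ n : ℕ, 0 < n → m ∣ n → ∀ d : ℕ,
      Nat.Coprime d (p ^ n - 1) → (∀ k : ℕ, ¬ d ≡ p ^ k [MOD p ^ m - 1]) →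
      ∃ a b : ℕ, 0 < a ∧ a < p ^ n - 1 ∧ b < p ^ n - 1 ∧ (p ^ n - 1) ∣ d * a + b ∧
        (((Nat.digits p a).sum + (Nat.digits p b).sum : ℕ) : ℝ) ≤
          (max (1 / 2 + ε) ((l + 1) / (2 * l)) * n + C * (n / m)) * ((p : ℝ) - 1) :=
  fun ε hε => Pool.Agent.Helper21.FD.main_fd ε hε

end Pool.Agent.Helper21.Retired.EveryField
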